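import Pool.Graph.R_seed8.Y930.Bz.G
import Pool.Graph.R_pool_sql_team_seeded_47a924f7.Results.MP_047497_nt.AlgebraicWeights
import Pool.Agent.H312.Sh.App2

/-!
# The Lindelöf-type bound for the Barnes multiple zeta function at every height, for most shifts

`ζ_r(s, a, w) = ∑ (a + m₁ w₁ + ⋯ + m_r w_r)^{-s}`, `d` the dimension of the `ℚ`-space spanned by the
weights `w`. The bound of Q1 is false for some weights. For the other ones we know it for most `t`.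
Here we treat every height `t` separately, and take the mean over the shift `a` instead. For all
`r ≥ 1`, all positive weights `w`, all `σ > 1/2` and `β ≥ 0` the following are equivalent.

* At every height the values are small in mean square over the shift: for all `0 < A ≤ B`, `σ₁` and
  `ε > 0` the mean square over `a ∈ [A, B]` of the maximum of `|ζ_r(x + iu, a, w)|` over
  `σ ≤ x ≤ σ₁`, `t ≤ u ≤ t + 1` is `O(t^{β + ε})`, for all `t ≥ 2`.
* There is an interval `[A, B]`, `0 < A < B`, such that for all `ε > 0` the mean square over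
  `a ∈ [A, B]` of `|ζ_r(σ + it, a, w)|` is `O(t^{β + ε})`.
* For all (or only for one) `a > 0` the mean square `∫_1^T |ζ_r(σ + it, a, w)|² dt` is
  `O(T^{1 + β + ε})` for all `ε > 0`.
* The Diophantine condition `∏_j max(‖ρ w_j‖, y)² ≥ c ρ^{-θ} y^{2σ + θ}` for all `ρ ≥ 1`,
  `0 < y ≤ 1`, with `c = c(θ) > 0`, for all `θ > 1 + β`.

In this case the set of the shifts `a ∈ [A, B]` with `|ζ_r(x + iu, a, w)| > t^η` for some
`x ∈ [σ, σ₁]` and `u ∈ [t, t + 1]` has measure `O(t^{β - 2η + ε})`, for every `t ≥ 2`. And if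
`τ_0, τ_1, …` are heights such that `∑ τ_n^{-γ - ε}` converges for all `ε > 0`, then for almost
all `a > 0`, for all `ε > 0` and `σ₁`, `ζ_r(x + iu, a, w) = O(u^{(β + γ)/2 + ε})` for all
`x ∈ [σ, σ₁]` and all `u` in the intervals `[τ_n, τ_n + 1]`.

On the left edge `σ = r - d/2` of the strip of Q1 all this holds with `β = 0` for `r ≥ 2` and all
weights with algebraic ratios, and for almost all weights. So the bound of Q1 holds in its whole strip
at every height for most shifts, and on every lacunary sequence of heights for almost all shifts.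

The equivalence of the last two conditions is contained in the library
(`MP_047497_nt.ExplicitCriterion`, `GrowthExponent`); the mean square over `a` is new. For `r = 1` it is
the theorem of Koksma and Lekkerkerker for the Hurwitz zeta function.

Proof idea: rotate the Mellin integral for `Γ(s) ζ_r(s, a, w)` to the ray with the angle
`π/2 - 1/t`. On a piece `ρ ≍ P` of the ray the kernel is `exp(-2πiρa)` times a function which does not
depend on `a`, so that the mean square over `a` is a quadratic form near the diagonal. The function is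
large only on short intervals, far apart, because of the Diophantine condition.
-/

set_option autoImplicit false

open Filter Topology Asymptotics MeasureTheory

namespace Pool.Agent.Results.MP_fcb754_nt.AllHeights

/-- The Dirichlet series `∑ (a + m₁ w₁ + ⋯ + m_r w_r)^{-s}` over `m ∈ ℕ^r` (with `0 ∈ ℕ`). -/
noncomputable def barnesSeries (r : ℕ) (a : ℝ) (w : Fin r → ℝ) (s : ℂ) : ℂ :=
  ∑' m : Fin r → ℕ, ((a + ∑ i, (m i : ℝ) * w i : ℝ) : ℂ) ^ (-s)

/-- `Z` is the Barnes multiple zeta function `ζ_r(·, a, w)`: it is holomorphic on the complex plane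
except for possible simple poles at `1, …, r`, and for `Re s > r` it is given by the (summable)
Dirichlet series. -/
structure IsBarnesZeta (r : ℕ) (a : ℝ) (w : Fin r → ℝ) (Z : ℂ → ℂ) : Prop where
  holomorphic : ∀ s : ℂ, (∀ j : ℕ, 1 ≤ j → j ≤ r → s ≠ j) → DifferentiableAt ℂ Z s
  simple_pole : ∀ j : ℕ, 1 ≤ j → j ≤ r →
    ∃ c : ℂ, Tendsto (fun s : ℂ => (s - j) * Z s) (𝓝[≠] (j : ℂ)) (𝓝 c)
  summable : ∀ s : ℂ, (r : ℝ) < s.re →
    Summable fun m : Fin r → ℕ => ((a + ∑ i, (m i : ℝ) * w i : ℝ) : ℂ) ^ (-s)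
  series : ∀ s : ℂ, (r : ℝ) < s.re → Z s = barnesSeries r a w s

/-- `Z a` is the Barnes multiple zeta function `ζ_r(·, a, w)` for all shifts `a > 0`. -/
def IsBarnesFamily (r : ℕ) (w : Fin r → ℝ) (Z : ℝ → ℂ → ℂ) : Prop :=
  ∀ a : ℝ, 0 < a → IsBarnesZeta r a w (Z a)

/-- The dimension `d` of the `ℚ`-vector space spanned by the weights. -/
noncomputable def weightDim (r : ℕ) (w : Fin r → ℝ) : ℕ :=
  Module.finrank ℚ (Submodule.span ℚ (Set.range w))

/-- The left edge `r - d/2` of the strip of Q1. -/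
noncomputable def edge (r : ℕ) (w : Fin r → ℝ) : ℝ := (r : ℝ) - weightDim r w / 2

/-- The mean square over the shift, in the whole strip to the right of `Re s = σ` and at every
height: for all `0 < A`, `B`, `σ₁` and `ε > 0` there is a `C` such that for all `t ≥ 2` the (upper)
integral over `a ∈ [A, B]` of the supremum of `|Z a (x + iu)|²` over `σ ≤ x ≤ σ₁`, `t ≤ u ≤ t + 1` is
at most `C t^{β + ε}`. -/
def EveryHeight (Z : ℝ → ℂ → ℂ) (σ β : ℝ) : Prop :=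
  ∀ A B σ₁ ε : ℝ, 0 < A → 0 < ε → ∃ C : ℝ, ∀ t : ℝ, 2 ≤ t → ∃ M : ℝ → ENNReal, Measurable M ∧
    (∀ a ∈ Set.Icc A B, ∀ x u : ℝ, σ ≤ x → x ≤ σ₁ → t ≤ u → u ≤ t + 1 →
      ‖Z a ((x : ℂ) + u * Complex.I)‖ₑ ^ 2 ≤ M a) ∧
    ∫⁻ a in Set.Icc A B, M a ≤ ENNReal.ofReal (C * t ^ (β + ε))

/-- The mean square over the shifts `a ∈ [A, B]` on the line `Re s = σ`, at every height. -/
def ShiftMean (Z : ℝ → ℂ → ℂ) (σ β A B : ℝ) : Prop :=
  ∀ ε : ℝ, 0 < ε → ∃ C : ℝ, ∀ t : ℝ, 2 ≤ t →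
    ∫⁻ a in Set.Icc A B, ‖Z a ((σ : ℂ) + t * Complex.I)‖ₑ ^ 2 ≤ ENNReal.ofReal (C * t ^ (β + ε))

/-- The mean square over the height, `∫_1^T |Z(σ + it)|² dt = O(T^{1 + β + ε})` for all `ε > 0`. -/
def HeightMean (Z : ℂ → ℂ) (σ β : ℝ) : Prop :=
  ∀ ε : ℝ, 0 < ε → (fun T : ℝ => ∫ t in (1 : ℝ)..T, ‖Z ((σ : ℂ) + t * Complex.I)‖ ^ 2)
    =O[atTop] fun T : ℝ => T ^ (1 + β + ε)

/-- A bound for the near resonances of the weights: `∏_j max(‖ρ w_j‖, y)²` is at least a constant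
times `ρ^{-θ} y^{2 σ + θ}` for all `ρ ≥ 1` and `0 < y ≤ 1`, where `‖x‖` is the distance of `x` to the
nearest integer. -/
def ResonanceBound (r : ℕ) (w : Fin r → ℝ) (σ θ : ℝ) : Prop :=
  ∃ c : ℝ, 0 < c ∧ ∀ ρ y : ℝ, 1 ≤ ρ → 0 < y → y ≤ 1 →
    c * (y ^ (2 * σ + θ) * ρ ^ (-θ)) ≤ ∏ j, (max |ρ * w j - round (ρ * w j)| y) ^ 2

/-- At every height `t ≥ 2` the values larger than `t^η` are rare: the set of the shifts
`a ∈ [A, B]` with such a value for some `σ ≤ x ≤ σ₁`, `t ≤ u ≤ t + 1` has measure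
`O(t^{β - 2η + ε})`. -/
def RareShifts (Z : ℝ → ℂ → ℂ) (σ β : ℝ) : Prop :=
  ∀ A B σ₁ η ε : ℝ, 0 < A → 0 < ε → ∃ C : ℝ, ∀ t : ℝ, 2 ≤ t →
    volume {a : ℝ | A ≤ a ∧ a ≤ B ∧ ∃ x u : ℝ, σ ≤ x ∧ x ≤ σ₁ ∧ t ≤ u ∧ u ≤ t + 1 ∧
      t ^ η < ‖Z a ((x : ℂ) + u * Complex.I)‖} ≤ ENNReal.ofReal (C * t ^ (β - 2 * η + ε))

/-- Let `τ_n ≥ 2` be heights such that `∑ τ_n^{-γ - ε}` converges for all `ε > 0`. Then for almost
all shifts `a > 0`, for all `σ₁` and `ε > 0`, `Z a (x + iu) = O(u^{(β + γ)/2 + ε})` for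
`σ ≤ x ≤ σ₁` and all `u` in the intervals `[τ_n, τ_n + 1]`. -/
def SparseHeights (Z : ℝ → ℂ → ℂ) (σ β γ : ℝ) : Prop :=
  ∀ τ : ℕ → ℝ, (∀ n, 2 ≤ τ n) → (∀ ε : ℝ, 0 < ε → Summable fun n => (τ n) ^ (-(γ + ε))) →
    ∀ᵐ a : ℝ, 0 < a → ∀ σ₁ ε : ℝ, 0 < ε → ∃ C : ℝ, ∀ (n : ℕ) (x u : ℝ), σ ≤ x → x ≤ σ₁ →
      τ n ≤ u → u ≤ τ n + 1 → ‖Z a ((x : ℂ) + u * Complex.I)‖ ≤ C * u ^ ((β + γ) / 2 + ε)

theorem exists_zeta (r : ℕ) (a : ℝ) (w : Fin r → ℝ) (ha : 0 < a) (hw : ∀ i, 0 < w i) :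
    ∃ Z : ℂ → ℂ, IsBarnesZeta r a w Z := by
  obtain ⟨c, hc⟩ := Pool.Agent.H131R5.BZ.exists_taylor a hw
  refine ⟨Pool.Agent.H131R5.BZ.FF a w c, ?_, ?_, ?_, ?_⟩
  · exact fun s hs => Pool.Agent.H131R5.BZ.FF_diff ha hw hc hs
  · exact fun j h1 h2 => Pool.Agent.Y930.Bz.FF_pole ha hw hc j h1 h2
  · exact fun s hs => (Pool.Agent.H131R5.BZ.FF_series ha hw hc hs).summable
  · exact fun s hs => (Pool.Agent.H131R5.BZ.FF_series ha hw hc hs).tsum_eq.symm

theorem exists_family (r : ℕ) (w : Fin r → ℝ) (hw : ∀ i, 0 < w i) :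
    ∃ Z : ℝ → ℂ → ℂ, IsBarnesFamily r w Z := by
  choose! Z hZ using fun (a : ℝ) (ha : 0 < a) => exists_zeta r a w ha hw
  exact ⟨Z, hZ⟩

lemma cont {r : ℕ} {a : ℝ} {w : Fin r → ℝ} {Z : ℂ → ℂ} (hZ : IsBarnesZeta r a w Z) :
    Pool.Agent.H312.Sub.Cont r a w Z :=
  ⟨fun s hs => hZ.holomorphic s hs, fun s hs => hZ.series s hs⟩

lemma resonance_iff (r : ℕ) (w : Fin r → ℝ) (σ θ : ℝ) :
    ResonanceBound r w σ θ ↔ Pool.Agent.H312.Barnes.Dio w (2 * σ) θ := Iff.rfl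

lemma every_iff (Z : ℝ → ℂ → ℂ) (σ β : ℝ) :
    EveryHeight Z σ β ↔ Pool.Agent.H312.Sh.Ev Z σ β := Iff.rfl

lemma shift_iff (Z : ℝ → ℂ → ℂ) (σ β A B : ℝ) :
    ShiftMean Z σ β A B ↔ Pool.Agent.H312.Sh.Ln Z σ β A B := Iff.rfl

lemma weightDim_le (r : ℕ) (w : Fin r → ℝ) : weightDim r w ≤ r := by
  have := finrank_range_le_card (R := ℚ) w
  simpa [weightDim, Set.finrank] using this

lemma edge_gt {r : ℕ} (hr : 2 ≤ r) (w : Fin r → ℝ) : 1 / 2 < edge r w := by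
  have h1 : (weightDim r w : ℝ) ≤ r := by exact_mod_cast weightDim_le r w
  have h2 : (2 : ℝ) ≤ r := by exact_mod_cast hr
  unfold edge
  linarith

lemma isBigO_of_le {f : ℝ → ℝ} {C q : ℝ} (hf : ∀ T : ℝ, 1 ≤ T → 0 ≤ f T)
    (h : ∀ T : ℝ, 1 ≤ T → f T ≤ C * T ^ q) : f =O[atTop] fun T : ℝ => T ^ q := by
  refine IsBigO.of_bound C ?_
  filter_upwards [eventually_ge_atTop (1 : ℝ)] with T hT
  rw [Real.norm_eq_abs, Real.norm_eq_abs, abs_of_nonneg (hf T hT),
    abs_of_nonneg (Real.rpow_nonneg (by linarith) _)]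
  exact h T hT

lemma moment_nonneg (Z : ℂ → ℂ) (σ : ℝ) (T : ℝ) (hT : 1 ≤ T) :
    0 ≤ ∫ t in (1 : ℝ)..T, ‖Z ((σ : ℂ) + t * Complex.I)‖ ^ 2 :=
  intervalIntegral.integral_nonneg hT fun t _ => by positivity

/-- from the mean square over the height to the Diophantine condition -/
lemma resonance_of_height {r : ℕ} {w : Fin r → ℝ} (hw : ∀ i, 0 < w i) {a : ℝ} (ha : 0 < a)
    {Z : ℂ → ℂ} (hZ : IsBarnesZeta r a w Z) {σ β : ℝ} (hσ : 1 / 2 < σ) (hβ : 0 ≤ β)
    (h : HeightMean Z σ β) : ∀ θ : ℝ, 1 + β < θ → ResonanceBound r w σ θ := by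
  intro θ hθ
  have h1 := h (θ - (1 + β)) (by linarith)
  rw [resonance_iff]
  have h2 := Pool.Agent.H312.Barnes.dio_of_moment ha hw (cont hZ).hol (cont hZ).ser (n := 2)
    (by norm_num) hσ (η := (θ - 1) / 2) (by linarith) (by
      refine h1.congr_right ?_
      intro T
      congr 1
      push_cast
      ring)
  have e : 1 + 2 * ((θ - 1) / 2) = θ := by ring
  rwa [e] at h2

/-- from the Diophantine condition to the mean square over the height -/
lemma height_of_resonance {r : ℕ} (hr : 1 ≤ r) {w : Fin r → ℝ} (hw : ∀ i, 0 < w i) {a : ℝ}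
    (ha : 0 < a) {Z : ℂ → ℂ} (hZ : IsBarnesZeta r a w Z) {σ β : ℝ} (hσ : 1 / 2 < σ) (hβ : 0 ≤ β)
    (h : ∀ θ : ℝ, 1 + β < θ → ResonanceBound r w σ θ) : HeightMean Z σ β := by
  intro ε hε
  obtain ⟨C, hC, h1⟩ := Pool.Agent.H312.Barnes.moment_two hr ha hw (cont hZ).hol (cont hZ).ser
    hσ.le (by linarith : 1 ≤ 1 + β + ε / 2) (h (1 + β + ε / 2) (by linarith)) (half_pos hε)
  refine isBigO_of_le (C := C) (fun T hT => moment_nonneg Z _ T hT) (fun T hT => ?_)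
  have e : 1 + β + ε / 2 + ε / 2 = 1 + β + ε := by ring
  have h2 := h1 T hT
  rwa [e] at h2

theorem equivalence {r : ℕ} (hr : 1 ≤ r) {w : Fin r → ℝ} (hw : ∀ i, 0 < w i)
    {Z : ℝ → ℂ → ℂ} (hZ : IsBarnesFamily r w Z) {σ β : ℝ} (hσ : 1 / 2 < σ) (hβ : 0 ≤ β) :
    List.TFAE [EveryHeight Z σ β,
      ∃ A B : ℝ, 0 < A ∧ A < B ∧ ShiftMean Z σ β A B,
      ∀ a : ℝ, 0 < a → HeightMean (Z a) σ β,
      ∃ a : ℝ, 0 < a ∧ HeightMean (Z a) σ β,
      ∀ θ : ℝ, 1 + β < θ → ResonanceBound r w σ θ] := by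
  tfae_have 1 → 2 := by
    intro h
    exact ⟨1, 2, one_pos, one_lt_two, Pool.Agent.H312.Sh.ln_of_ev h one_pos 2⟩
  tfae_have 2 → 5 := by
    rintro ⟨A, B, hA, hAB, h⟩ θ hθ
    have h1 := Pool.Agent.H312.Sh.dio_of_ln hw (fun a ha => cont (hZ a ha)) hA hAB hσ hβ h
      (by linarith : 0 < θ - (1 + β))
    have e : 1 + β + (θ - (1 + β)) = θ := by ring
    rwa [e] at h1
  tfae_have 5 → 1 := by
    intro h
    exact Pool.Agent.H312.Sh.ev_of_dio hr hw (fun a ha => cont (hZ a ha)) hσ hβ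
      fun ε hε => h _ (by linarith)
  tfae_have 5 → 3 := by
    intro h a ha
    exact height_of_resonance hr hw ha (hZ a ha) hσ hβ h
  tfae_have 3 → 4 := by
    intro h
    exact ⟨1, one_pos, h 1 one_pos⟩
  tfae_have 4 → 5 := by
    rintro ⟨a, ha, h⟩
    exact resonance_of_height hw ha (hZ a ha) hσ hβ h
  tfae_finish

theorem algebraic {r : ℕ} (hr : 2 ≤ r) {w : Fin r → ℝ} (hw : ∀ i, 0 < w i)
    (halg : ∀ i j, IsAlgebraic ℚ (w i / w j)) {Z : ℝ → ℂ → ℂ} (hZ : IsBarnesFamily r w Z) :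
    EveryHeight Z (edge r w) 0 := by
  have h1 := hZ 1 one_pos
  have hZ' : Pool.Agent.Results.MP_047497_nt.AlgebraicWeights.IsBarnesZeta r 1 w (Z 1) :=
    ⟨h1.holomorphic, h1.simple_pole, h1.summable, h1.series⟩
  have h2 := (Pool.Agent.Results.MP_047497_nt.AlgebraicWeights.result.2 r 1 w one_pos hw (Z 1)
    hZ').2.2 halg
  have h3 := h2.2.2.1 (by omega) (edge r w) le_rfl
  have h4 : HeightMean (Z 1) (edge r w) 0 := by
    intro ε hε
    refine (h3 ε hε).congr_right fun T => ?_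
    congr 1
    ring
  have hTF : EveryHeight Z (edge r w) 0 ↔ ∃ a : ℝ, 0 < a ∧ HeightMean (Z a) (edge r w) 0 :=
    (equivalence (by omega) hw hZ (edge_gt hr w) le_rfl).out 0 3
  exact hTF.2 ⟨1, one_pos, h4⟩

theorem weightDim_eq {d : ℕ} {v : Fin d → ℝ} (hv : LinearIndependent ℚ v) {r : ℕ} {w : Fin r → ℝ}
    (hspan : Submodule.span ℚ (Set.range w) = Submodule.span ℚ (Set.range v)) :
    weightDim r w = d := by
  unfold weightDim
  rw [hspan, finrank_span_eq_card hv]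
  simp

theorem almost_all {d : ℕ} (hd : 1 ≤ d) : ∀ᵐ v : Fin d → ℝ, LinearIndependent ℚ v ∧
    ∀ (r : ℕ) (w : Fin r → ℝ), 2 ≤ r → (∀ i, 0 < w i) →
      Submodule.span ℚ (Set.range w) = Submodule.span ℚ (Set.range v) →
      weightDim r w = d ∧ ∀ Z : ℝ → ℂ → ℂ, IsBarnesFamily r w Z → EveryHeight Z (edge r w) 0 := by
  filter_upwards [Pool.Agent.Y616.BM.ae_good d, Pool.Agent.Y616.BM.ae_indep d] with v hG hv
  refine ⟨hv, fun r w hr hw hspan => ⟨weightDim_eq hv hspan, fun Z hZ => ?_⟩⟩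
  have hdim := weightDim_eq hv hspan
  have he : edge r w = (r : ℝ) - d / 2 := by rw [edge, hdim]
  obtain ⟨c, hc⟩ := Pool.Agent.H131R5.BZ.exists_taylor 1 hw
  have h4 : HeightMean (Z 1) (edge r w) 0 := by
    intro ε hε
    obtain ⟨C, hC, h1⟩ := Pool.Agent.Y616.BM.second_moment hd hv hG one_pos hw hspan hc he.ge hε
    refine isBigO_of_le (C := C) (fun T hT => moment_nonneg _ _ T hT) (fun T hT => ?_)
    have e : 1 + 0 + ε = 1 + ε := by ring
    rw [e]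
    exact Pool.Agent.H312.Barnes.int_of_lint one_pos hw hc (cont (hZ 1 one_pos)).hol
      (cont (hZ 1 one_pos)).ser hT (by positivity) (h1 T hT)
  have hTF : EveryHeight Z (edge r w) 0 ↔ ∃ a : ℝ, 0 < a ∧ HeightMean (Z a) (edge r w) 0 :=
    (equivalence (by omega) hw hZ (edge_gt hr w) le_rfl).out 0 3
  exact hTF.2 ⟨1, one_pos, h4⟩

/-- (1) For `r ≥ 1`, positive weights `w`, `σ > 1/2` and `β ≥ 0` the following are equivalent: the mean
square over the shift `a ∈ [A, B]` in the strip to the right of `Re s = σ` is `O(t^{β + ε})` at every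
height `t ≥ 2`, for all `[A, B] ⊂ (0, ∞)`; this holds on the line `Re s = σ` for one interval `[A, B]`;
the mean square over the height on this line is `O(T^{1 + β + ε})` for all `a > 0`; for one `a > 0`;
the weights satisfy the Diophantine condition `ResonanceBound` with all exponents `θ > 1 + β`.
(2) In this case large values at every height are rare, and the bound
`O(u^{(β + γ)/2 + ε})` holds for almost all shifts on each set of heights of exponent `γ`. (3) On the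
left edge `σ = r - d/2` of the strip of Q1, for `r ≥ 2` and `β = 0`, this is the case if all ratios
`w_i / w_j` are algebraic numbers, (4) and for almost all weights: for almost all `v ∈ ℝ^d` and all
positive weights `w` with the same `ℚ`-span. (5) The Barnes zeta functions of the statement exist. -/
theorem result :
    (∀ (r : ℕ) (w : Fin r → ℝ) (Z : ℝ → ℂ → ℂ) (σ β : ℝ), 1 ≤ r → (∀ i, 0 < w i) →
      IsBarnesFamily r w Z → 1 / 2 < σ → 0 ≤ β →
      List.TFAE [EveryHeight Z σ β,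
        ∃ A B : ℝ, 0 < A ∧ A < B ∧ ShiftMean Z σ β A B,
        ∀ a : ℝ, 0 < a → HeightMean (Z a) σ β,
        ∃ a : ℝ, 0 < a ∧ HeightMean (Z a) σ β,
        ∀ θ : ℝ, 1 + β < θ → ResonanceBound r w σ θ]) ∧
    (∀ (Z : ℝ → ℂ → ℂ) (σ β γ : ℝ), 0 ≤ β → 0 ≤ γ → EveryHeight Z σ β →
      RareShifts Z σ β ∧ SparseHeights Z σ β γ) ∧
    (∀ (r : ℕ) (w : Fin r → ℝ) (Z : ℝ → ℂ → ℂ), 2 ≤ r → (∀ i, 0 < w i) → IsBarnesFamily r w Z →
      (∀ i j, IsAlgebraic ℚ (w i / w j)) → EveryHeight Z (edge r w) 0) ∧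
    (∀ d : ℕ, 1 ≤ d → ∀ᵐ v : Fin d → ℝ, LinearIndependent ℚ v ∧
      ∀ (r : ℕ) (w : Fin r → ℝ), 2 ≤ r → (∀ i, 0 < w i) →
        Submodule.span ℚ (Set.range w) = Submodule.span ℚ (Set.range v) →
        weightDim r w = d ∧ ∀ Z : ℝ → ℂ → ℂ, IsBarnesFamily r w Z → EveryHeight Z (edge r w) 0) ∧
    (∀ (r : ℕ) (w : Fin r → ℝ), (∀ i, 0 < w i) → ∃ Z : ℝ → ℂ → ℂ, IsBarnesFamily r w Z) := by
  refine ⟨fun r w Z σ β hr hw hZ hσ hβ => equivalence hr hw hZ hσ hβ,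
    fun Z σ β γ hβ hγ h => ⟨fun A B σ₁ η ε hA hε =>
      Pool.Agent.H312.Sh.rare_shifts h hA B σ₁ η hε, fun τ hτ hs =>
      Pool.Agent.H312.Sh.sparse h (by linarith) hτ hs⟩,
    fun r w Z hr hw hZ halg => algebraic hr hw halg hZ, fun d hd => almost_all hd,
    fun r w hw => exists_family r w hw⟩

end Pool.Agent.Results.MP_fcb754_nt.AllHeights
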