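import Pool.Graph.R_seed8.Y930.Bz.G
import Pool.Agent.H312.Sub.Crit2

/-!
# The pointwise order of the Barnes multiple zeta function: all weights, exponents at least `1/2`

`ζ_r(s, a, w) = ∑ (a + m₁ w₁ + ⋯ + m_r w_r)^{-s}`, `d` the dimension of the `ℚ`-space spanned by the
weights `w`. The bound `O(t^ε)` of Q1 in the strip `r - d/2 ≤ Re s ≤ σ₁` is false for some weights. We
determine how large the values can be.

(1) What holds for all weights in the place of Q1: if `d ≥ 2` then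
`ζ_r(σ + it, a, w) = O(t^{(d-1)/2 + ε})` uniformly in the strip `r - d/2 ≤ σ ≤ σ₁`, and the exponent
`(d-1)/2` is the best possible, for all `2 ≤ d ≤ r`. More generally the exponent `r - σ - 1/2` on the
line `Re s = σ ≤ r - 1` is valid for all weights, and it is attained.

(2) A criterion for each weight vector: for all positive weights `w`, all `a > 0`, `σ > 1/2` and all
exponents `η ≥ 1/2` the bound `ζ_r(σ + it, a, w) = O(t^{η + ε})` for all `ε > 0` holds if and only if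
the mean square is `O(T^{1 + 2η + ε})` for all `ε > 0`, if and only if the Diophantine condition
`∏_j max(‖ρ w_j‖, y)² ≥ c ρ^{-θ} y^{2σ + θ}` holds for all `θ > 1 + 2η`. So it does not depend on `a`,
and the largest values are as large as the mean square allows.

(3) If `w` is simultaneously approximable with the exponent `κ₁` (for example `κ₁ = 1/(d-1)`) and
`σ ≥ r - 1 - κ₁` then the condition is `κ (r - σ)/(1 + κ) ≤ η + 1/2` for all exponents `κ` of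
simultaneous approximation: the order on this line is `κ(w) (r - σ)/(1 + κ(w)) - 1/2` with the best
exponent `κ(w)`, if this number is at least `1/2`.

Proof idea: `K(z) = exp(-a z) ∏ 1/(1 - exp(-w_j z))` is the inverse Mellin transform of
`Γ(s) ζ_r(s)`. We rotate the ray of integration to the angle `π/2 - 1/t` and bound the integral of
`|K|` over it: the set of the `ρ ≤ P` with `‖ρ w_j‖ ≤ z_j` for all `j` consists of short intervals, and
two of them are far apart, because the difference `ρ'` of two points satisfies `‖ρ' w_j‖ ≤ 2 z_j`. The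
pointwise bound from the first power of the kernel has the exponent `θ - 1/2` with
`∏_j max(‖ρ w_j‖, y) ≥ c ρ^{-θ} y^{σ + θ}`, as long as `θ ≥ 1`, and this is the square root of the
condition in (2), `θ = η + 1/2`. Conversely, a bound for a mean value bounds `|K(2 π i ρ + y)|`.
-/

set_option autoImplicit false

open Filter Topology Asymptotics MeasureTheory

namespace Pool.Agent.Results.MP_fcb754_nt.PointwiseExponent

/-- The Dirichlet series `∑ (a + m₁ w₁ + ⋯ + m_r w_r)^{-s}` over `m ∈ ℕ^r` (with `0 ∈ ℕ`). -/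
noncomputable def barnesSeries (r : ℕ) (a : ℝ) (w : Fin r → ℝ) (s : ℂ) : ℂ :=
  ∑' m : Fin r → ℕ, ((a + ∑ i, (m i : ℝ) * w i : ℝ) : ℂ) ^ (-s)

/-- `Z` is the Barnes multiple zeta function `ζ_r(·, a, w)`: it is holomorphic on the complex plane
except for possible simple poles at `1, …, r`, and for `Re s > r` it is given by the (summable)
Dirichlet series. -/
structure IsBarnesZeta (r : ℕ) (a : ℝ) (w : Fin r → ℝ) (Z : ℂ → ℂ) : Prop where
  holomorphic : ∀ s : ℂ, (∀ j : ℕ, 1 ≤ j → j ≤ r → s ≠ j) → DifferentiableAt ℂ Z s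
  simple_pole : ∀ j : ℕ, 1 ≤ j → j ≤ r →
    ∃ c : ℂ, Tendsto (fun s : ℂ => (s - j) * Z s) (𝓝[≠] (j : ℂ)) (𝓝 c)
  summable : ∀ s : ℂ, (r : ℝ) < s.re →
    Summable fun m : Fin r → ℕ => ((a + ∑ i, (m i : ℝ) * w i : ℝ) : ℂ) ^ (-s)
  series : ∀ s : ℂ, (r : ℝ) < s.re → Z s = barnesSeries r a w s

/-- The dimension `d` of the `ℚ`-vector space spanned by the weights. -/
noncomputable def weightDim (r : ℕ) (w : Fin r → ℝ) : ℕ :=
  Module.finrank ℚ (Submodule.span ℚ (Set.range w))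

/-- The values `Z(σ + it)` are `O(t^{η + ε})` for every `ε > 0`. -/
def OrderLE (Z : ℂ → ℂ) (σ η : ℝ) : Prop :=
  ∀ ε : ℝ, 0 < ε → ∃ C : ℝ, ∀ t : ℝ, 2 ≤ t → ‖Z (σ + t * Complex.I)‖ ≤ C * t ^ (η + ε)

/-- The mean square `∫_1^T |Z(σ + it)|^2 dt` is `O(T^{1 + 2 η + ε})` for every `ε > 0`. -/
def MeanSquareLE (Z : ℂ → ℂ) (σ η : ℝ) : Prop :=
  ∀ ε : ℝ, 0 < ε → (fun T : ℝ => ∫ t in (1 : ℝ)..T, ‖Z (σ + t * Complex.I)‖ ^ 2)
    =O[atTop] fun T : ℝ => T ^ (1 + 2 * η + ε)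

/-- A bound for the near resonances of the weights: `∏_j max(‖ρ w_j‖, y)²` is at least a constant
times `ρ^{-θ} y^{2 σ + θ}` for all `ρ ≥ 1` and `0 < y ≤ 1`, where `‖x‖` is the distance of `x` to the
nearest integer. -/
def ResonanceBound (r : ℕ) (w : Fin r → ℝ) (σ θ : ℝ) : Prop :=
  ∃ c : ℝ, 0 < c ∧ ∀ ρ y : ℝ, 1 ≤ ρ → 0 < y → y ≤ 1 →
    c * (y ^ (2 * σ + θ) * ρ ^ (-θ)) ≤ ∏ j, (max |ρ * w j - round (ρ * w j)| y) ^ 2

/-- The weights are simultaneously approximable with the exponent `κ`: there are a constant `C` and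
arbitrarily large real numbers `D` such that every `D w_j` is within `C D^{-κ}` of an integer. -/
def Approximable (r : ℕ) (w : Fin r → ℝ) (κ : ℝ) : Prop :=
  ∃ C : ℝ, ∀ X : ℝ, ∃ D : ℝ, X ≤ D ∧ ∀ j, ∃ N : ℤ, |D * w j - N| ≤ C * D ^ (-κ)

theorem exists_zeta (r : ℕ) (a : ℝ) (w : Fin r → ℝ) (ha : 0 < a) (hw : ∀ i, 0 < w i) :
    ∃ Z : ℂ → ℂ, IsBarnesZeta r a w Z := by
  obtain ⟨c, hc⟩ := Pool.Agent.H131R5.BZ.exists_taylor a hw
  refine ⟨Pool.Agent.H131R5.BZ.FF a w c, ?_, ?_, ?_, ?_⟩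
  · exact fun s hs => Pool.Agent.H131R5.BZ.FF_diff ha hw hc hs
  · exact fun j h1 h2 => Pool.Agent.Y930.Bz.FF_pole ha hw hc j h1 h2
  · exact fun s hs => (Pool.Agent.H131R5.BZ.FF_series ha hw hc hs).summable
  · exact fun s hs => (Pool.Agent.H131R5.BZ.FF_series ha hw hc hs).tsum_eq.symm

theorem cont {r : ℕ} {a : ℝ} {w : Fin r → ℝ} {Z : ℂ → ℂ} (hZ : IsBarnesZeta r a w Z) :
    Pool.Agent.H312.Sub.Cont r a w Z :=
  ⟨fun s hs => hZ.holomorphic s hs, fun s hs => hZ.series s hs⟩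

lemma approximable_iff (r : ℕ) (w : Fin r → ℝ) (κ : ℝ) :
    Approximable r w κ ↔ Pool.Agent.H312.Barnes.SimApprox w Finset.univ κ := by
  unfold Approximable Pool.Agent.H312.Barnes.SimApprox
  simp

lemma weightDim_le (r : ℕ) (w : Fin r → ℝ) : weightDim r w ≤ r := by
  have := finrank_range_le_card (R := ℚ) w
  simpa [weightDim, Set.finrank] using this

lemma res_iff (r : ℕ) (w : Fin r → ℝ) (σ η : ℝ) :
    (∀ θ : ℝ, 1 + 2 * η < θ → ResonanceBound r w σ θ) ↔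
      ∀ ε : ℝ, 0 < ε → Pool.Agent.H312.Barnes.Dio w (2 * σ) (1 + 2 * η + ε) := by
  constructor
  · intro h ε hε
    exact h _ (by linarith)
  · intro h θ hθ
    have h1 := h (θ - (1 + 2 * η)) (by linarith)
    have e : 1 + 2 * η + (θ - (1 + 2 * η)) = θ := by ring
    rw [e] at h1
    exact h1

theorem criterion {r : ℕ} (hr : 1 ≤ r) {w : Fin r → ℝ} (hw : ∀ i, 0 < w i) {a : ℝ} (ha : 0 < a)
    {Z : ℂ → ℂ} (hZ : IsBarnesZeta r a w Z) {σ η : ℝ} (hσ : 1 / 2 < σ) (hη : 1 / 2 ≤ η) :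
    List.TFAE [OrderLE Z σ η, MeanSquareLE Z σ η,
      ∀ θ : ℝ, 1 + 2 * η < θ → ResonanceBound r w σ θ] := by
  rw [res_iff]
  have h1 : OrderLE Z σ η ↔ _ := Pool.Agent.H312.Sub.pt_iff hr ha hw (cont hZ) hσ hη
  have h2 := Pool.Agent.H312.Sub.mom_iff hr ha hw (cont hZ) hσ hη (n := 2) (by norm_num)
  have h3 : MeanSquareLE Z σ η ↔ ∀ ε : ℝ, 0 < ε →
      Pool.Agent.H312.Barnes.Dio w (2 * σ) (1 + 2 * η + ε) := by
    rw [← h2]
    unfold MeanSquareLE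
    push_cast
    rfl
  tfae_have 1 ↔ 3 := h1
  tfae_have 2 ↔ 3 := h3
  tfae_finish

theorem universal {r : ℕ} (hr : 1 ≤ r) {w : Fin r → ℝ} (hw : ∀ i, 0 < w i) {a : ℝ} (ha : 0 < a)
    {Z : ℂ → ℂ} (hZ : IsBarnesZeta r a w Z) {σ : ℝ} (hσ : 0 < σ) (hσr : σ ≤ r - 1) :
    OrderLE Z σ (r - σ - 1 / 2) :=
  Pool.Agent.H312.Sub.pt_univ hr ha hw (cont hZ) hσ hσr

theorem strip {r : ℕ} {w : Fin r → ℝ} (hw : ∀ i, 0 < w i) {a : ℝ} (ha : 0 < a)
    {Z : ℂ → ℂ} (hZ : IsBarnesZeta r a w Z) (hd : 2 ≤ weightDim r w) {ε : ℝ} (hε : 0 < ε) (σ₁ : ℝ) :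
    ∃ C : ℝ, ∀ σ t : ℝ, (r : ℝ) - (weightDim r w : ℝ) / 2 ≤ σ → σ ≤ σ₁ → 2 ≤ t →
      ‖Z (σ + t * Complex.I)‖ ≤ C * t ^ (((weightDim r w : ℝ) - 1) / 2 + ε) := by
  have hdr := weightDim_le r w
  have hdr' : (weightDim r w : ℝ) ≤ r := by exact_mod_cast hdr
  have hd' : (2 : ℝ) ≤ weightDim r w := by exact_mod_cast hd
  have h1 := universal (by omega : 1 ≤ r) hw ha hZ (σ := (r : ℝ) - (weightDim r w : ℝ) / 2)
    (by linarith) (by linarith)
  have e : (r : ℝ) - ((r : ℝ) - (weightDim r w : ℝ) / 2) - 1 / 2 = ((weightDim r w : ℝ) - 1) / 2 := by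
    ring
  rw [e] at h1
  exact Pool.Agent.H312.Sub.pt_strip ha hw (cont hZ) (by linarith) (by linarith) h1 hε σ₁

theorem simL_approx {r : ℕ} {w : Fin r → ℝ} (h : Pool.Agent.Y930.Bz.SimL w) (κ : ℝ) :
    Approximable r w κ := by
  refine ⟨1, fun X => ?_⟩
  obtain ⟨D, hD, hN⟩ := h (max (max 1 ⌈X⌉₊) ⌈κ⌉₊)
  have hD1 : 1 ≤ D := (le_max_left _ _).trans ((le_max_left _ _).trans hD)
  have hDX : X ≤ D := (Nat.le_ceil X).trans
    (Nat.cast_le.2 ((le_max_right _ _).trans ((le_max_left _ _).trans hD)))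
  have hD1' : (1 : ℝ) ≤ D := by exact_mod_cast hD1
  have hD0 : (0 : ℝ) < D := by linarith
  refine ⟨D, hDX, fun j => ?_⟩
  obtain ⟨N, hN⟩ := hN j
  refine ⟨N, hN.trans ?_⟩
  rw [one_mul, Real.rpow_neg hD0.le, one_div]
  refine inv_anti₀ (Real.rpow_pos_of_pos hD0 _) ?_
  rw [← Real.rpow_natCast]
  refine Real.rpow_le_rpow_of_exponent_le hD1' ?_
  exact (Nat.le_ceil κ).trans (Nat.cast_le.2 (le_max_right _ _))

theorem lower {r : ℕ} {w : Fin r → ℝ} (hw : ∀ i, 0 < w i) {a : ℝ} (ha : 0 < a)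
    {Z : ℂ → ℂ} (hZ : IsBarnesZeta r a w Z) {κ : ℝ} (hκ : 0 < κ) (hA : Approximable r w κ)
    {σ η : ℝ} (hσ : 1 / 2 < σ) (hη : 0 ≤ η) (h : OrderLE Z σ η) :
    2 * κ * (r - σ) ≤ (1 + κ) * (1 + 2 * η) := by
  refine le_of_forall_pos_le_add fun ε hε => ?_
  have hκ1 : 0 < 1 + κ := by linarith
  have h2 := Pool.Agent.H312.Sub.dio_of_moments ha hw (cont hZ) (n := 1) le_rfl hσ hη
    (fun ε hε => Pool.Agent.H312.Sub.moment_of_pt (cont hZ).hol hη h 1 hε)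
    (by positivity : 0 < ε / (1 + κ))
  have h3 := Pool.Agent.H312.Barnes.approx_dio hκ ((approximable_iff r w κ).1 hA) h2
  have e : (1 + κ) * (1 + 2 * η + ε / (1 + κ)) = (1 + κ) * (1 + 2 * η) + ε := by
    field_simp
  rwa [e] at h3

theorem order_mono {Z : ℂ → ℂ} {σ η η' : ℝ} (h : OrderLE Z σ η) (hη : η ≤ η') : OrderLE Z σ η' := by
  intro ε hε
  obtain ⟨C, hC⟩ := h ε hε
  refine ⟨max C 0, fun t ht => (hC t ht).trans ?_⟩
  have h1 : t ^ (η + ε) ≤ t ^ (η' + ε) :=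
    Real.rpow_le_rpow_of_exponent_le (by linarith) (by linarith)
  have h2 : 0 < t ^ (η + ε) := Real.rpow_pos_of_pos (by linarith) _
  calc C * t ^ (η + ε) ≤ max C 0 * t ^ (η + ε) := by
        gcongr
        exact le_max_left _ _
    _ ≤ _ := by gcongr

theorem sharp {r : ℕ} (hr : 1 ≤ r) {w : Fin r → ℝ} (hw : ∀ i, 0 < w i)
    (hA : ∀ κ : ℝ, Approximable r w κ) {a : ℝ} (ha : 0 < a) {Z : ℂ → ℂ} (hZ : IsBarnesZeta r a w Z)
    {σ η : ℝ} (hσ : 1 / 2 < σ) (hσr : σ ≤ r - 1) (hη : 0 ≤ η) :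
    OrderLE Z σ η ↔ r - σ - 1 / 2 ≤ η := by
  refine ⟨fun h => ?_, fun h => order_mono (universal hr hw ha hZ (by linarith) hσr) h⟩
  refine le_of_forall_pos_le_add fun δ hδ => ?_
  have h1 := lower hw ha hZ (κ := max 1 ((r - σ) / δ)) (lt_of_lt_of_le one_pos (le_max_left _ _))
    (hA _) hσ hη h
  set κ : ℝ := max 1 ((r - σ) / δ) with hκ
  have hκ1 : 1 ≤ κ := le_max_left _ _
  have hκ2 : (r - σ) / δ ≤ κ := le_max_right _ _
  rw [div_le_iff₀ hδ] at hκ2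
  by_contra hcon
  rw [not_le] at hcon
  nlinarith

theorem exact_order {r : ℕ} (hr : 1 ≤ r) {w : Fin r → ℝ} (hw : ∀ i, 0 < w i) {κ₁ : ℝ}
    (hκ₁ : 0 < κ₁) (hA : Approximable r w κ₁) {a : ℝ} (ha : 0 < a) {Z : ℂ → ℂ}
    (hZ : IsBarnesZeta r a w Z) {σ η : ℝ} (hσ : 1 / 2 < σ) (hσ1 : r - 1 - κ₁ ≤ σ) (hσr : σ ≤ r)
    (hη : 1 / 2 ≤ η) :
    OrderLE Z σ η ↔ ∀ κ : ℝ, 0 < κ → Approximable r w κ → κ * (r - σ) / (1 + κ) - 1 / 2 ≤ η := by
  have h1 : OrderLE Z σ η ↔ _ := Pool.Agent.H312.Sub.pt_iff hr ha hw (cont hZ) hσ hη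
  rw [h1, Pool.Agent.H312.Sub.dio_approx_iff hr (by linarith : 0 ≤ η) hκ₁
    ((approximable_iff r w κ₁).1 hA) (by linarith) (by linarith)]
  constructor
  · intro h κ hκ hκA
    have h2 := h κ hκ ((approximable_iff r w κ).1 hκA)
    have hκ1 : 0 < 1 + κ := by linarith
    have h3 : κ * (r - σ) / (1 + κ) ≤ η + 1 / 2 := by
      rw [div_le_iff₀ hκ1]
      linarith
    linarith
  · intro h κ hκ hκA
    have h2 := h κ hκ ((approximable_iff r w κ).2 hκA)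
    have hκ1 : 0 < 1 + κ := by linarith
    have h3 : κ * (r - σ) / (1 + κ) ≤ η + 1 / 2 := by linarith
    rw [div_le_iff₀ hκ1] at h3
    linarith

theorem dirichlet {r : ℕ} {w : Fin r → ℝ} (hw : ∀ i, 0 < w i) (hd : 2 ≤ weightDim r w) :
    Approximable r w (1 / ((weightDim r w : ℝ) - 1)) := by
  have hd' : (2 : ℝ) ≤ weightDim r w := by exact_mod_cast hd
  have h0 : 0 < (weightDim r w : ℝ) - 1 := by linarith
  rw [approximable_iff]
  refine Pool.Agent.H312.Barnes.simApprox_dim w hw (by positivity) (le_of_eq ?_)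
  change 1 / ((weightDim r w : ℝ) - 1) * ((weightDim r w : ℝ) - 1) = 1
  field_simp

/-- (1) For all positive weights `w` of dimension `d ≥ 2` and all `a > 0` the Barnes zeta function is
`O(t^{(d-1)/2 + ε})` uniformly in the strip `r - d/2 ≤ σ ≤ σ₁` of Q1; more generally, for all positive
weights (`r ≥ 1` in number) its order on the line `0 < σ ≤ r - 1` is at most `r - σ - 1/2`. (2) For
`2 ≤ d ≤ r` there are positive weights `w` of dimension `d` such that for all `a > 0`, `1/2 < σ ≤ r - 1`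
and `η ≥ 0` the order is at most `η` if and only if `r - σ - 1/2 ≤ η`. In particular `(d-1)/2` is the
best possible exponent in (1). (3) For all positive weights, `a > 0`, `σ > 1/2` and `η ≥ 1/2` the order
is at most `η` if and only if the mean square is `O(T^{1 + 2η + ε})` for all `ε > 0`, if and only if the
weights satisfy `ResonanceBound` with all exponents `θ > 1 + 2 η`. (4) If the weights are
simultaneously approximable with the exponent `κ₁ > 0` and `r - 1 - κ₁ ≤ σ ≤ r`, then this is the case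
if and only if `κ (r - σ)/(1 + κ) - 1/2 ≤ η` for all exponents `κ > 0` of simultaneous approximation of
the weights. Here `κ₁ = 1/(d - 1)` is admissible, `d ≥ 2`. (5) The Barnes zeta functions of the
statement exist. -/
theorem result :
    (∀ (r : ℕ) (w : Fin r → ℝ) (a : ℝ) (Z : ℂ → ℂ), 1 ≤ r → (∀ i, 0 < w i) → 0 < a →
      IsBarnesZeta r a w Z →
      (2 ≤ weightDim r w → ∀ ε σ₁ : ℝ, 0 < ε → ∃ C : ℝ, ∀ σ t : ℝ,
        (r : ℝ) - (weightDim r w : ℝ) / 2 ≤ σ → σ ≤ σ₁ → 2 ≤ t →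
        ‖Z (σ + t * Complex.I)‖ ≤ C * t ^ (((weightDim r w : ℝ) - 1) / 2 + ε)) ∧
      (∀ σ : ℝ, 0 < σ → σ ≤ r - 1 → OrderLE Z σ (r - σ - 1 / 2))) ∧
    (∀ r d : ℕ, 2 ≤ d → d ≤ r → ∃ w : Fin r → ℝ, (∀ i, 0 < w i) ∧ weightDim r w = d ∧
      ∀ (a : ℝ) (Z : ℂ → ℂ), 0 < a → IsBarnesZeta r a w Z → ∀ σ η : ℝ, 1 / 2 < σ → σ ≤ r - 1 →
        0 ≤ η → (OrderLE Z σ η ↔ r - σ - 1 / 2 ≤ η)) ∧
    (∀ (r : ℕ) (w : Fin r → ℝ) (a : ℝ) (Z : ℂ → ℂ), 1 ≤ r → (∀ i, 0 < w i) → 0 < a →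
      IsBarnesZeta r a w Z → ∀ σ η : ℝ, 1 / 2 < σ → 1 / 2 ≤ η →
      List.TFAE [OrderLE Z σ η, MeanSquareLE Z σ η,
        ∀ θ : ℝ, 1 + 2 * η < θ → ResonanceBound r w σ θ] ∧
      ∀ κ₁ : ℝ, 0 < κ₁ → Approximable r w κ₁ → r - 1 - κ₁ ≤ σ → σ ≤ r →
        (OrderLE Z σ η ↔
          ∀ κ : ℝ, 0 < κ → Approximable r w κ → κ * (r - σ) / (1 + κ) - 1 / 2 ≤ η)) ∧
    (∀ (r : ℕ) (w : Fin r → ℝ), (∀ i, 0 < w i) → 2 ≤ weightDim r w →
      Approximable r w (1 / ((weightDim r w : ℝ) - 1))) ∧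
    (∀ (r : ℕ) (a : ℝ) (w : Fin r → ℝ), 0 < a → (∀ i, 0 < w i) →
      ∃ Z : ℂ → ℂ, IsBarnesZeta r a w Z) := by
  refine ⟨fun r w a Z hr hw ha hZ => ⟨fun hd ε σ₁ hε => strip hw ha hZ hd hε σ₁,
    fun σ hσ hσr => universal hr hw ha hZ hσ hσr⟩, fun r d hd hdr => ?_,
    fun r w a Z hr hw ha hZ σ η hσ hη => ⟨criterion hr hw ha hZ hσ hη,
      fun κ₁ hκ₁ hA hσ1 hσr => exact_order hr hw hκ₁ hA ha hZ hσ hσ1 hσr hη⟩,
    fun r w hw hd => dirichlet hw hd, exists_zeta⟩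
  obtain ⟨w, hw, hdim, hL⟩ := Pool.Agent.Y930.Bz.exists_weights (by omega : 1 ≤ d) hdr
  exact ⟨w, hw, hdim, fun a Z ha hZ σ η hσ hσr hη =>
    sharp (by omega) hw (simL_approx hL) ha hZ hσ hσr hη⟩

end Pool.Agent.Results.MP_fcb754_nt.PointwiseExponent
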