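import Pool.Graph.R_seed8.Y930.Bz.G
import Pool.Graph.R_pool_sql_team_seeded_47a924f7.Results.MP_047497_nt.AlgebraicWeights
import Pool.Agent.H312.Barnes.Lv

/-!
# The Lindelöf-type bound for the Barnes multiple zeta function for almost all ordinates, for all
weights with algebraic ratios

`ζ_r(s, a, w) = ∑ (a + m₁ w₁ + ⋯ + m_r w_r)^{-s}`, `d` the dimension of the `ℚ`-space spanned by the
weights `w`. The bound of Q1 is false for some weights, so we ask for which weights it holds in the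
whole strip outside a small set of ordinates. For every number `r ≥ 2` of weights, all positive
weights `w` and all `a > 0` the following are equivalent.

* In the whole strip of Q1 the large values are rare: for all `σ₁`, `η ≥ 0` and `ε > 0` the set of the
  `t ∈ [T, 2T]` such that `|ζ_r(σ + it, a, w)| > t^η` for some `σ ∈ [r - d/2, σ₁]` has measure
  `O(T^{1 - 2η + ε})`. (So the bound `t^η` of Q1, `η > 0`, holds in the strip for all `t ∈ [T, 2T]`
  outside a set of measure `O(T^{1 - η})`.)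
* The mean square on the left edge `Re s = r - d/2` of the strip is `O(T^{1 + ε})` for all `ε > 0`.
* The mean value on the left edge is `O(T^{1 + ε})` for all `ε > 0`.
* The Diophantine condition `∏_j max(‖ρ w_j‖, y)² ≥ c ρ^{-θ} y^{2r - d + θ}` for all `ρ ≥ 1`,
  `0 < y ≤ 1`, with `c = c(θ) > 0`, for all `θ > 1`.

They hold for all weights whose ratios are algebraic numbers.

The mean square was treated in the library (`MP_047497_nt.ExplicitCriterion`, `GrowthExponent` and
`AlgebraicWeights`, with a criterion for each line and the theorem for algebraic ratios, which rests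
on the subspace theorem); new are the equivalence with the first and third conditions, and so the
bound in the strip for explicit weights.

Proof idea: `K(z) = exp(-a z) ∏ 1/(1 - exp(-w_j z))` is the inverse Mellin transform of
`Γ(s) ζ_r(s)`. For the mean square we use Plancherel's theorem on the ray with the angle
`π/2 - 1/T`. The set of the `ρ ≤ P` with `‖ρ w_j‖ ≤ z_j` for all `j` consists of short intervals. Two
of them are far apart, because the difference `ρ'` of two points again satisfies `‖ρ' w_j‖ ≤ 2 z_j`.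
Conversely, a bound for the mean value bounds `|K(2 π i ρ + y)|`.
-/

set_option autoImplicit false

open Filter Topology Asymptotics MeasureTheory

namespace Pool.Agent.Results.MP_fcb754_nt.RareLargeValues

/-- The Dirichlet series `∑ (a + m₁ w₁ + ⋯ + m_r w_r)^{-s}` over `m ∈ ℕ^r` (with `0 ∈ ℕ`). -/
noncomputable def barnesSeries (r : ℕ) (a : ℝ) (w : Fin r → ℝ) (s : ℂ) : ℂ :=
  ∑' m : Fin r → ℕ, ((a + ∑ i, (m i : ℝ) * w i : ℝ) : ℂ) ^ (-s)

/-- `Z` is the Barnes multiple zeta function `ζ_r(·, a, w)`: it is holomorphic on the complex plane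
except for possible simple poles at `1, …, r`, and for `Re s > r` it is given by the (summable)
Dirichlet series. -/
structure IsBarnesZeta (r : ℕ) (a : ℝ) (w : Fin r → ℝ) (Z : ℂ → ℂ) : Prop where
  holomorphic : ∀ s : ℂ, (∀ j : ℕ, 1 ≤ j → j ≤ r → s ≠ j) → DifferentiableAt ℂ Z s
  simple_pole : ∀ j : ℕ, 1 ≤ j → j ≤ r →
    ∃ c : ℂ, Tendsto (fun s : ℂ => (s - j) * Z s) (𝓝[≠] (j : ℂ)) (𝓝 c)
  summable : ∀ s : ℂ, (r : ℝ) < s.re →
    Summable fun m : Fin r → ℕ => ((a + ∑ i, (m i : ℝ) * w i : ℝ) : ℂ) ^ (-s)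
  series : ∀ s : ℂ, (r : ℝ) < s.re → Z s = barnesSeries r a w s

/-- The dimension `d` of the `ℚ`-vector space spanned by the weights. -/
noncomputable def weightDim (r : ℕ) (w : Fin r → ℝ) : ℕ :=
  Module.finrank ℚ (Submodule.span ℚ (Set.range w))

/-- The left edge `r - d/2` of the strip of Q1. -/
noncomputable def edge (r : ℕ) (w : Fin r → ℝ) : ℝ := (r : ℝ) - weightDim r w / 2

/-- In the strip `r - d/2 ≤ Re s ≤ σ₁` the large values of `Z` are rare, for all `σ₁`: the set of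
ordinates `t ∈ [T, 2T]` with a value larger than `t^η` has measure `O(T^{1 - 2η + ε})`. -/
def LargeValuesRare (r : ℕ) (w : Fin r → ℝ) (Z : ℂ → ℂ) : Prop :=
  ∀ σ₁ η ε : ℝ, 0 ≤ η → 0 < ε → ∃ C : ℝ, ∀ T : ℝ, 2 ≤ T →
    volume {t : ℝ | T ≤ t ∧ t ≤ 2 * T ∧ ∃ σ : ℝ, edge r w ≤ σ ∧ σ ≤ σ₁ ∧
      t ^ η < ‖Z (σ + t * Complex.I)‖} ≤ ENNReal.ofReal (C * T ^ (1 - 2 * η + ε))

/-- The moment `∫_1^T |Z(σ + it)|^n dt` is `O(T^{1 + ε})` for every `ε > 0`. -/
def MomentSmall (Z : ℂ → ℂ) (σ : ℝ) (n : ℕ) : Prop :=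
  ∀ ε : ℝ, 0 < ε → (fun T : ℝ => ∫ t in (1 : ℝ)..T, ‖Z (σ + t * Complex.I)‖ ^ n)
    =O[atTop] fun T : ℝ => T ^ (1 + ε)

/-- A bound for the near resonances of the weights: `∏_j max(‖ρ w_j‖, y)²` is at least a constant
times `ρ^{-θ} y^{2 σ + θ}` for all `ρ ≥ 1` and `0 < y ≤ 1`, where `‖x‖` is the distance of `x` to the
nearest integer. -/
def ResonanceBound (r : ℕ) (w : Fin r → ℝ) (σ θ : ℝ) : Prop :=
  ∃ c : ℝ, 0 < c ∧ ∀ ρ y : ℝ, 1 ≤ ρ → 0 < y → y ≤ 1 →
    c * (y ^ (2 * σ + θ) * ρ ^ (-θ)) ≤ ∏ j, (max |ρ * w j - round (ρ * w j)| y) ^ 2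

theorem exists_zeta (r : ℕ) (a : ℝ) (w : Fin r → ℝ) (ha : 0 < a) (hw : ∀ i, 0 < w i) :
    ∃ Z : ℂ → ℂ, IsBarnesZeta r a w Z := by
  obtain ⟨c, hc⟩ := Pool.Agent.H131R5.BZ.exists_taylor a hw
  refine ⟨Pool.Agent.H131R5.BZ.FF a w c, ?_, ?_, ?_, ?_⟩
  · exact fun s hs => Pool.Agent.H131R5.BZ.FF_diff ha hw hc hs
  · exact fun j h1 h2 => Pool.Agent.Y930.Bz.FF_pole ha hw hc j h1 h2
  · exact fun s hs => (Pool.Agent.H131R5.BZ.FF_series ha hw hc hs).summable
  · exact fun s hs => (Pool.Agent.H131R5.BZ.FF_series ha hw hc hs).tsum_eq.symm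

lemma resonance_iff (r : ℕ) (w : Fin r → ℝ) (σ θ : ℝ) :
    ResonanceBound r w σ θ ↔ Pool.Agent.H312.Barnes.Dio w (2 * σ) θ := Iff.rfl

lemma rare_iff (r : ℕ) (w : Fin r → ℝ) (Z : ℂ → ℂ) :
    LargeValuesRare r w Z ↔ Pool.Agent.H312.Barnes.Rare Z (edge r w) := Iff.rfl

lemma isBigO_of_le {f : ℝ → ℝ} {C q : ℝ} (hf : ∀ T : ℝ, 1 ≤ T → 0 ≤ f T)
    (h : ∀ T : ℝ, 1 ≤ T → f T ≤ C * T ^ q) : f =O[atTop] fun T : ℝ => T ^ q := by
  refine IsBigO.of_bound C ?_
  filter_upwards [eventually_ge_atTop (1 : ℝ)] with T hT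
  rw [Real.norm_eq_abs, Real.norm_eq_abs, abs_of_nonneg (hf T hT),
    abs_of_nonneg (Real.rpow_nonneg (by linarith) _)]
  exact h T hT

lemma moment_nonneg (Z : ℂ → ℂ) (σ : ℝ) (n : ℕ) (T : ℝ) (hT : 1 ≤ T) :
    0 ≤ ∫ t in (1 : ℝ)..T, ‖Z (σ + t * Complex.I)‖ ^ n :=
  intervalIntegral.integral_nonneg hT fun t _ => by positivity

lemma weightDim_le (r : ℕ) (w : Fin r → ℝ) : weightDim r w ≤ r := by
  have := finrank_range_le_card (R := ℚ) w
  simpa [weightDim, Set.finrank] using this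

lemma edge_gt {r : ℕ} (hr : 2 ≤ r) (w : Fin r → ℝ) : 1 / 2 < edge r w := by
  have h1 : (weightDim r w : ℝ) ≤ r := by exact_mod_cast weightDim_le r w
  have h2 : (2 : ℝ) ≤ r := by exact_mod_cast hr
  unfold edge
  linarith

theorem equivalence {r : ℕ} (hr : 2 ≤ r) {w : Fin r → ℝ} (hw : ∀ i, 0 < w i) {a : ℝ} (ha : 0 < a)
    {Z : ℂ → ℂ} (hZ : IsBarnesZeta r a w Z) :
    List.TFAE [LargeValuesRare r w Z, MomentSmall Z (edge r w) 2, MomentSmall Z (edge r w) 1,
      ∀ θ : ℝ, 1 < θ → ResonanceBound r w (edge r w) θ] := by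
  have hm := edge_gt hr w
  have hr0 : 0 < r := by omega
  tfae_have 1 → 2 := by
    intro h ε hε
    obtain ⟨C, hC, h1⟩ := Pool.Agent.H312.Barnes.ms_of_rare hr0 ha hw
      (fun s hs => hZ.holomorphic s hs) (fun s hs => hZ.series s hs) hm h hε
    exact isBigO_of_le (C := C) (fun T hT => moment_nonneg Z _ 2 T hT) h1
  tfae_have 2 → 4 := by
    intro h θ hθ
    have h1 := h (θ - 1) (by linarith)
    rw [resonance_iff]
    have h2 := Pool.Agent.H312.Barnes.dio_of_moment ha hw (fun s hs => hZ.holomorphic s hs)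
      (fun s hs => hZ.series s hs) (n := 2) (by norm_num) hm
      (η := (θ - 1) / 2) (by linarith) (by
        refine h1.congr_right ?_
        intro T
        congr 1
        push_cast
        ring)
    have e : 1 + 2 * ((θ - 1) / 2) = θ := by ring
    rwa [e] at h2
  tfae_have 3 → 4 := by
    intro h θ hθ
    have h1 := h ((θ - 1) / 2) (by linarith)
    rw [resonance_iff]
    have h2 := Pool.Agent.H312.Barnes.dio_of_moment ha hw (fun s hs => hZ.holomorphic s hs)
      (fun s hs => hZ.series s hs) (n := 1) le_rfl hm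
      (η := (θ - 1) / 2) (by linarith) (by
        refine h1.congr_right ?_
        intro T
        congr 1
        push_cast
        ring)
    have e : 1 + 2 * ((θ - 1) / 2) = θ := by ring
    rwa [e] at h2
  tfae_have 4 → 3 := by
    intro h ε hε
    obtain ⟨C, hC, h1⟩ := Pool.Agent.H312.Barnes.moment_one hr0 ha hw
      (fun s hs => hZ.holomorphic s hs) (fun s hs => hZ.series s hs) hm.le
      (by linarith : 1 ≤ 1 + ε) (h (1 + ε) (by linarith)) (half_pos hε)
    refine isBigO_of_le (C := C) (fun T hT => moment_nonneg Z _ 1 T hT) (fun T hT => ?_)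
    have e : (1 + (1 + ε)) / 2 + ε / 2 = 1 + ε := by ring
    have h2 := h1 T hT
    rwa [e] at h2
  tfae_have 4 → 1 := by
    intro h
    exact Pool.Agent.H312.Barnes.rare_of_dio hr0 ha hw
      (fun s hs => hZ.holomorphic s hs) (fun s hs => hZ.series s hs) hm
      (fun ε hε => h (1 + ε) (by linarith))
  tfae_finish

theorem algebraic {r : ℕ} (hr : 2 ≤ r) {w : Fin r → ℝ} (hw : ∀ i, 0 < w i)
    (halg : ∀ i j, IsAlgebraic ℚ (w i / w j)) {a : ℝ} (ha : 0 < a)
    {Z : ℂ → ℂ} (hZ : IsBarnesZeta r a w Z) : LargeValuesRare r w Z := by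
  have hZ' : Pool.Agent.Results.MP_047497_nt.AlgebraicWeights.IsBarnesZeta r a w Z :=
    ⟨hZ.holomorphic, hZ.simple_pole, hZ.summable, hZ.series⟩
  have h1 := (Pool.Agent.Results.MP_047497_nt.AlgebraicWeights.result.2 r a w ha hw Z hZ').2.2 halg
  have h2 := h1.2.2.1 (by omega) (edge r w) le_rfl
  have hTF : LargeValuesRare r w Z ↔ MomentSmall Z (edge r w) 2 := (equivalence hr hw ha hZ).out 0 1
  exact hTF.2 h2

/-- (1) For `r ≥ 2`, all positive weights `w` and all `a > 0` the following are equivalent: the large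
values of `ζ_r(s, a, w)` in the strip of Q1 are rare; its mean square on the left edge
`Re s = r - d/2` of the strip is `O(T^{1 + ε})` for all `ε > 0`; its mean value there is `O(T^{1 + ε})`
for all `ε > 0`; the weights satisfy the Diophantine condition `ResonanceBound` with all exponents
`θ > 1`. (2) If all the ratios `w_i / w_j` are algebraic numbers, all of them hold. (3) The Barnes
zeta functions of the statement exist. -/
theorem result :
    (∀ (r : ℕ) (w : Fin r → ℝ) (a : ℝ) (Z : ℂ → ℂ), 2 ≤ r → (∀ i, 0 < w i) → 0 < a →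
      IsBarnesZeta r a w Z →
      List.TFAE [LargeValuesRare r w Z, MomentSmall Z (edge r w) 2, MomentSmall Z (edge r w) 1,
        ∀ θ : ℝ, 1 < θ → ResonanceBound r w (edge r w) θ] ∧
      ((∀ i j, IsAlgebraic ℚ (w i / w j)) → LargeValuesRare r w Z)) ∧
    (∀ (r : ℕ) (a : ℝ) (w : Fin r → ℝ), 0 < a → (∀ i, 0 < w i) →
      ∃ Z : ℂ → ℂ, IsBarnesZeta r a w Z) :=
  ⟨fun _ _ _ _ hr hw ha hZ => ⟨equivalence hr hw ha hZ, fun halg => algebraic hr hw halg ha hZ⟩,
    exists_zeta⟩

end Pool.Agent.Results.MP_fcb754_nt.RareLargeValues
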