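import Pool.Graph.R_seed8.Y930.Bz.G
import Pool.Agent.H312.Sub.Fin
import Pool.Agent.H312.Sub.Half

/-!
# Subconvexity for the Barnes multiple zeta function, for all weights

`ζ_r(s, a, w) = ∑ (a + m₁ w₁ + ⋯ + m_r w_r)^{-s}`, `d` the dimension of the `ℚ`-space spanned by the
weights `w`. The bound of Q1 (`O(t^ε)` for `Re s ≥ r - d/2`) is false for some weights; for generic
weights it is an analogue of the Lindelöf hypothesis. Suppose that the order of `ζ_r` is at most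
`1/2` on the lines to the right of `Re s = r - D`, where `1 ≤ D ≤ r`. Then the convexity bound between
this line and `Re s = r` is `O(t^{x/(2D) + ε})` on the line `Re s = r - x`. We go below it, for all
weights, all `a > 0`, all such `D` and all `0 < x < D`:

* `ζ_r(σ + it, a, w) = O(t^{x/(2D) - g})` uniformly for `r - x ≤ σ ≤ σ₁`, with an explicit
  `g = g(D, x) > 0`.

The hypothesis holds

* with `D = 1` for ALL positive weights `w` and all `a > 0`;
* with `D = d` if the ratios `w_i / w_j` are algebraic numbers, and for all weights which span the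
  same `ℚ`-space as almost any vector `v ∈ ℝ^d`; for `x = d/2` this gives a power saving over the
  convexity bound `O(t^{1/4 + ε})` (library, `PointwiseAlmostAll`, almost all weights) in the whole
  strip of Q1, `O(t^{1/4 - δ})` with `δ = 1/(128 d (d+1) (2d+1)² 4^d)`;
* if `∏_j max(‖ρ w_j‖, y) ≥ c ρ^{-1-ε} y^{r-D+1+ε}` for all `ρ ≥ 1`, `0 < y ≤ 1` (with `c = c(ε) > 0`, for
  all `ε > 0`); and only in this case, if `D ≤ r - 1/2`;
* with `D = 1 + 1/κ` if `κ ≥ 1` and the weights are not simultaneously approximable with any exponent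
  larger than `κ`; for the weights `(1, α)` we can take any `κ ≥ 1` such that `κ + 1` is at least the
  irrationality exponent of `α`.

Proof idea. (a) `Γ(s) ζ_r(s)` is the Mellin transform of `K(z) = exp(-a z) ∏ 1/(1 - exp(-w_j z))`
(regularised). We rotate the ray to the angle `π/2 - 1/t`; the set of the `ρ ≤ P` for which all
`‖ρ w_j‖ ≤ z_j` consists of short intervals far apart from each other, and this gives `O(t^{1/2 + ε})`
on the lines to the right of `r - D`. For algebraic ratios the Diophantine condition is Schmidt's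
theorem (from the subspace theorem, library). (b) Let `P(s)` be the part of the series with
`a + m·w ≤ X = t^{1/(2D) + η}`. Its size is bounded by the method of Weyl and van der Corput, with
`Q > 2D` differencing steps, applied to the summation over one of the variables: we save a power of
`t` over the trivial bound. (c) To the right of `Re s = r` the difference `ζ_r(s) - P(s)` is
`O(X^{r - Re s})`, and a maximum principle between a line there and a line to the right of `r - D`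
gives a bound for it with a power saving, because `X` is larger than `t^{1/(2D)}`.
-/

set_option autoImplicit false

open Filter Topology Asymptotics MeasureTheory

namespace Pool.Agent.Results.MP_fcb754_nt.Subconvexity

/-- The Dirichlet series `∑ (a + m₁ w₁ + ⋯ + m_r w_r)^{-s}` over `m ∈ ℕ^r` (with `0 ∈ ℕ`). -/
noncomputable def barnesSeries (r : ℕ) (a : ℝ) (w : Fin r → ℝ) (s : ℂ) : ℂ :=
  ∑' m : Fin r → ℕ, ((a + ∑ i, (m i : ℝ) * w i : ℝ) : ℂ) ^ (-s)

/-- `Z` is the Barnes multiple zeta function `ζ_r(·, a, w)`: it is holomorphic on the complex plane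
except for possible simple poles at `1, …, r`, and for `Re s > r` it is given by the (summable)
Dirichlet series. -/
structure IsBarnesZeta (r : ℕ) (a : ℝ) (w : Fin r → ℝ) (Z : ℂ → ℂ) : Prop where
  holomorphic : ∀ s : ℂ, (∀ j : ℕ, 1 ≤ j → j ≤ r → s ≠ j) → DifferentiableAt ℂ Z s
  simple_pole : ∀ j : ℕ, 1 ≤ j → j ≤ r →
    ∃ c : ℂ, Tendsto (fun s : ℂ => (s - j) * Z s) (𝓝[≠] (j : ℂ)) (𝓝 c)
  summable : ∀ s : ℂ, (r : ℝ) < s.re →
    Summable fun m : Fin r → ℕ => ((a + ∑ i, (m i : ℝ) * w i : ℝ) : ℂ) ^ (-s)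
  series : ∀ s : ℂ, (r : ℝ) < s.re → Z s = barnesSeries r a w s

/-- The dimension `d` of the `ℚ`-vector space spanned by the weights. -/
noncomputable def weightDim (r : ℕ) (w : Fin r → ℝ) : ℕ :=
  Module.finrank ℚ (Submodule.span ℚ (Set.range w))

/-- The gain `g(D, x) = min(1/(4 Q 2^Q), x/2) (D - x) / (8 D² (D+1) (2D+1))`, where `Q = ⌈2 D⌉ + 1`. -/
noncomputable def gain (D x : ℝ) : ℝ :=
  min (1 / (4 * ((⌈2 * D⌉₊ : ℝ) + 1) * 2 ^ (⌈2 * D⌉₊ + 1))) (x / 2) * (D - x) /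
    (8 * D ^ 2 * (D + 1) * (2 * D + 1))

/-- The order of `Z` is at most `1/2` on all lines `Re s = σ > 0` to the right of `Re s = r - D`. -/
def OrderHalf (r : ℕ) (D : ℝ) (Z : ℂ → ℂ) : Prop :=
  ∀ σ : ℝ, 0 < σ → r - D < σ → ∀ ε : ℝ, 0 < ε → ∃ C : ℝ, ∀ t : ℝ, 2 ≤ t →
    ‖Z (σ + t * Complex.I)‖ ≤ C * t ^ (1 / 2 + ε)

/-- Subconvexity to the right of `Re s = r - D`: for all `0 < x < D` and `σ₁` the function `Z(σ + it)`
is `O(t^{x/(2D) - g(D, x)})` uniformly for `r - x ≤ σ ≤ σ₁`. -/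
def Subconvex (r : ℕ) (D : ℝ) (Z : ℂ → ℂ) : Prop :=
  ∀ x σ₁ : ℝ, 0 < x → x < D → ∃ C : ℝ, ∀ σ t : ℝ, r - x ≤ σ → σ ≤ σ₁ → 2 ≤ t →
    ‖Z (σ + t * Complex.I)‖ ≤ C * t ^ (x / (2 * D) - gain D x)

/-- The Diophantine condition: `∏_j max(‖ρ w_j‖, y) ≥ c ρ^{-1-ε} y^{r-D+1+ε}` for all `ρ ≥ 1` and
`0 < y ≤ 1`, for all `ε > 0`, where `‖x‖` is the distance of `x` to the nearest integer. -/
def Generic (r : ℕ) (w : Fin r → ℝ) (D : ℝ) : Prop :=
  ∀ ε : ℝ, 0 < ε → ∃ c : ℝ, 0 < c ∧ ∀ ρ y : ℝ, 1 ≤ ρ → 0 < y → y ≤ 1 →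
    c * (y ^ (r - D + (1 + ε)) * ρ ^ (-(1 + ε))) ≤ ∏ j, max |ρ * w j - round (ρ * w j)| y

/-- The weights are simultaneously approximable with the exponent `κ`: there are a constant `C` and
arbitrarily large real numbers `D` such that every `D w_j` is within `C D^{-κ}` of an integer. -/
def Approximable (r : ℕ) (w : Fin r → ℝ) (κ : ℝ) : Prop :=
  ∃ C : ℝ, ∀ X : ℝ, ∃ D : ℝ, X ≤ D ∧ ∀ j, ∃ N : ℤ, |D * w j - N| ≤ C * D ^ (-κ)

theorem exists_zeta (r : ℕ) (a : ℝ) (w : Fin r → ℝ) (ha : 0 < a) (hw : ∀ i, 0 < w i) :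
    ∃ Z : ℂ → ℂ, IsBarnesZeta r a w Z := by
  obtain ⟨c, hc⟩ := Pool.Agent.H131R5.BZ.exists_taylor a hw
  refine ⟨Pool.Agent.H131R5.BZ.FF a w c, ?_, ?_, ?_, ?_⟩
  · exact fun s hs => Pool.Agent.H131R5.BZ.FF_diff ha hw hc hs
  · exact fun j h1 h2 => Pool.Agent.Y930.Bz.FF_pole ha hw hc j h1 h2
  · exact fun s hs => (Pool.Agent.H131R5.BZ.FF_series ha hw hc hs).summable
  · exact fun s hs => (Pool.Agent.H131R5.BZ.FF_series ha hw hc hs).tsum_eq.symm

theorem cont {r : ℕ} {a : ℝ} {w : Fin r → ℝ} {Z : ℂ → ℂ} (hZ : IsBarnesZeta r a w Z) :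
    Pool.Agent.H312.Sub.Cont r a w Z :=
  ⟨fun s hs => hZ.holomorphic s hs, fun s hs => hZ.series s hs⟩

lemma approximable_iff (r : ℕ) (w : Fin r → ℝ) (κ : ℝ) :
    Approximable r w κ ↔ Pool.Agent.H312.Barnes.SimApprox w Finset.univ κ := by
  unfold Approximable Pool.Agent.H312.Barnes.SimApprox
  simp

theorem dim_le (r : ℕ) (w : Fin r → ℝ) : weightDim r w ≤ r := by
  unfold weightDim
  have h := finrank_range_le_card (R := ℚ) (M := ℝ) w
  rw [Fintype.card_fin] at h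
  exact h

lemma gain_eq (D x : ℝ) : gain D x = Pool.Agent.H312.Sub.gnR (⌈2 * D⌉₊ + 1) D x := by
  unfold gain Pool.Agent.H312.Sub.gnR Pool.Agent.H312.Sub.shR Pool.Agent.H312.Sub.eta
  push_cast
  rw [div_mul_eq_mul_div, div_div]
  congr 1
  ring

theorem gain_pos {D x : ℝ} (hD : 1 ≤ D) (hx : 0 < x) (hxD : x < D) : 0 < gain D x := by
  rw [gain_eq]
  exact Pool.Agent.H312.Sub.gnR_pos (by omega) hD hx hxD

/-- the value at `x = d / 2` -/
theorem gain_edge {d : ℕ} (hd : 1 ≤ d) :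
    (d : ℝ) / 2 / (2 * (d : ℝ)) - gain d (d / 2) =
      1 / 4 - 1 / (128 * (d : ℝ) * (d + 1) * (2 * d + 1) ^ 2 * 4 ^ d) := by
  have hd' : (1 : ℝ) ≤ d := by exact_mod_cast hd
  have hd0 : (0 : ℝ) < d := by linarith
  have hceil : ⌈2 * (d : ℝ)⌉₊ = 2 * d := by
    have e : 2 * (d : ℝ) = ((2 * d : ℕ) : ℝ) := by push_cast; ring
    rw [e, Nat.ceil_natCast]
  have h4 : (1 : ℝ) ≤ 4 ^ d := one_le_pow₀ (by norm_num)
  have e2 : (2 : ℝ) ^ (2 * d + 1) = 2 * 4 ^ d := by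
    rw [pow_succ, pow_mul]
    norm_num
    ring
  have e1 : (d : ℝ) / 2 / (2 * (d : ℝ)) = 1 / 4 := by
    field_simp
    norm_num
  have e3 : min (1 / (4 * ((⌈2 * (d : ℝ)⌉₊ : ℝ) + 1) * 2 ^ (⌈2 * (d : ℝ)⌉₊ + 1))) ((d : ℝ) / 2 / 2) =
      1 / (8 * (2 * (d : ℝ) + 1) * 4 ^ d) := by
    rw [hceil, e2]
    have e4 : 1 / (4 * (((2 * d : ℕ) : ℝ) + 1) * (2 * 4 ^ d)) =
        1 / (8 * (2 * (d : ℝ) + 1) * 4 ^ d) := by
      congr 1
      push_cast
      ring
    rw [e4]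
    apply min_eq_left
    rw [div_div, div_le_div_iff₀ (by positivity) (by norm_num)]
    calc (1 : ℝ) * (2 * 2) ≤ 1 * (8 * (2 * 1 + 1) * 1) := by norm_num
      _ ≤ (d : ℝ) * (8 * (2 * (d : ℝ) + 1) * 4 ^ d) := by gcongr
  rw [e1, gain, e3]
  congr 1
  field_simp
  ring

theorem main {r : ℕ} (hr : 1 ≤ r) {w : Fin r → ℝ} (hw : ∀ i, 0 < w i) {a : ℝ}
    (ha : 0 < a) {Z : ℂ → ℂ} (hZ : IsBarnesZeta r a w Z) {D : ℝ} (hD : 1 ≤ D) (hDr : D ≤ r)
    (h : OrderHalf r D Z) : Subconvex r D Z := by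
  intro x σ₁ hx hxD
  obtain ⟨c, hc⟩ := Pool.Agent.H131R5.BZ.exists_taylor a hw
  have hQ : 2 * D + 1 ≤ ((⌈2 * D⌉₊ + 1 : ℕ) : ℝ) := by
    push_cast
    have := Nat.le_ceil (2 * D)
    linarith
  have hline : ∀ σ ε : ℝ, 0 < σ → (r : ℝ) - D < σ → 0 < ε → ∃ C : ℝ, 0 ≤ C ∧ ∀ t : ℝ, 1 ≤ t →
      ‖Pool.Agent.H131R5.BZ.FF a w c ((σ : ℂ) + t * Complex.I)‖ ≤ C * t ^ (1 / 2 + ε) := by
    intro σ ε hσ hσD hε
    obtain ⟨C₀, hC₀⟩ := h σ hσ hσD ε hε
    have hcont := Pool.Agent.H312.Barnes.line_cont (cont hZ).hol σ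
    obtain ⟨M, hM⟩ := (isCompact_Icc (a := (1 : ℝ)) (b := 2)).exists_bound_of_continuousOn
      (hcont.mono (fun t ht => ht.1))
    refine ⟨max 0 (max C₀ M), le_max_left _ _, fun t ht => ?_⟩
    rw [← (cont hZ).eq ha hw hc σ (by linarith)]
    have ht1 : 1 ≤ t ^ (1 / 2 + ε) := Real.one_le_rpow ht (by linarith)
    rcases le_total 2 t with h2 | h2
    · refine (hC₀ t h2).trans ?_
      gcongr
      exact (le_max_left _ _).trans (le_max_right _ _)
    · calc _ ≤ M := hM t ⟨ht, h2⟩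
        _ ≤ max 0 (max C₀ M) * 1 := by
            rw [mul_one]
            exact (le_max_right _ _).trans (le_max_right _ _)
        _ ≤ _ := by gcongr
  obtain ⟨C, -, h1⟩ := Pool.Agent.H312.Sub.stripR hr ha hw hc hD hDr _ hQ hline hx hxD σ₁
  refine ⟨C, fun σ t hσ hσ1 ht => ?_⟩
  rw [(cont hZ).eq ha hw hc σ (by linarith), gain_eq]
  exact h1 σ t hσ hσ1 ht

theorem of_generic {r : ℕ} (hr : 1 ≤ r) {w : Fin r → ℝ} (hw : ∀ i, 0 < w i) {a : ℝ}
    (ha : 0 < a) {Z : ℂ → ℂ} (hZ : IsBarnesZeta r a w Z) {D : ℝ} (h : Generic r w D) :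
    OrderHalf r D Z :=
  fun _ hσ hσD => Pool.Agent.H312.Sub.half_of_di hr ha hw (cont hZ) h hσ hσD

theorem algebraic {r : ℕ} (hr : 1 ≤ r) {w : Fin r → ℝ} (hw : ∀ i, 0 < w i) {a : ℝ}
    (ha : 0 < a) {Z : ℂ → ℂ} (hZ : IsBarnesZeta r a w Z)
    (halg : ∀ i j, IsAlgebraic ℚ (w i / w j)) : OrderHalf r (weightDim r w) Z := by
  intro σ hσ hσd ε hε
  obtain ⟨c, hc⟩ := Pool.Agent.H131R5.BZ.exists_taylor a hw
  obtain ⟨C, -, h1⟩ := Pool.Agent.H312.Sub.line_alg hr ha hw halg hc hσ hσd.le hε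
  refine ⟨C, fun t ht => ?_⟩
  rw [(cont hZ).eq ha hw hc σ (by linarith)]
  exact h1 t (by linarith)

theorem weightDim_eq {d : ℕ} {v : Fin d → ℝ} (hv : LinearIndependent ℚ v) {r : ℕ} {w : Fin r → ℝ}
    (hspan : Submodule.span ℚ (Set.range w) = Submodule.span ℚ (Set.range v)) :
    weightDim r w = d := by
  unfold weightDim
  rw [hspan, finrank_span_eq_card hv]
  simp

theorem almost_all (d : ℕ) : ∀ᵐ v : Fin d → ℝ, LinearIndependent ℚ v ∧
    ∀ (r : ℕ) (w : Fin r → ℝ), (∀ i, 0 < w i) →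
      Submodule.span ℚ (Set.range w) = Submodule.span ℚ (Set.range v) →
      weightDim r w = d ∧ ∀ (a : ℝ) (Z : ℂ → ℂ), 0 < a → IsBarnesZeta r a w Z →
        OrderHalf r d Z := by
  filter_upwards [Pool.Agent.Y616.BM.ae_goo d, Pool.Agent.Y616.BM.ae_indep d] with v hG hv
  refine ⟨hv, fun r w hw hspan => ⟨weightDim_eq hv hspan, fun a Z ha hZ σ hσ hσd ε hε => ?_⟩⟩
  obtain ⟨c, hc⟩ := Pool.Agent.H131R5.BZ.exists_taylor a hw
  obtain ⟨C, -, h1⟩ := Pool.Agent.Y616.BM.line_bound hv hG ha hw hspan hc hσ hσd hε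
  refine ⟨C, fun t ht => ?_⟩
  rw [(cont hZ).eq ha hw hc σ (by linarith)]
  exact h1 t (by linarith)

/-- **Subconvexity for all weights.** (1) Let `r ≥ 1`, let `w` be positive weights, `a > 0`,
`1 ≤ D ≤ r`. If the order of `ζ_r(s, a, w)` is at most `1/2` to the right of `Re s = r - D`, then it
satisfies `Subconvex r D`, and here `g(D, x) > 0`. (2) This hypothesis, `OrderHalf r D`, is true for
`D = 1` for all `w` and `a`; for `D = d` if all `w_i / w_j` are algebraic; and for all `D` such that `w`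
satisfies the Diophantine condition `Generic r w D`. Conversely it implies this condition, if
`D ≤ r - 1/2`. (3) If `κ ≥ 1` and `w` is not simultaneously approximable with any exponent larger
than `κ`, then `w` satisfies `Generic r w (1 + 1/κ)`. For the weights `(1, α)` with irrational `α > 0`
this means that `κ + 1` is at least the irrationality exponent of `α`. (4) For `d ≥ 1` and almost every
`v ∈ ℝ^d`: all positive weights `w`, in any number `r`, which span the same `ℚ`-space as `v` have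
dimension `d` and satisfy `OrderHalf r d` for all `a > 0`. (5) For `D = d` and `x = d/2` the exponent in
`Subconvex` is `1/4 - 1/(128 d (d+1) (2d+1)² 4^d)`. (6) The Barnes zeta functions of the statement
exist. -/
theorem result :
    (∀ (r : ℕ) (w : Fin r → ℝ) (a : ℝ) (Z : ℂ → ℂ), 1 ≤ r → (∀ i, 0 < w i) → 0 < a →
      IsBarnesZeta r a w Z →
      (∀ D : ℝ, 1 ≤ D → D ≤ r → OrderHalf r D Z → Subconvex r D Z) ∧
      OrderHalf r 1 Z ∧
      ((∀ i j, IsAlgebraic ℚ (w i / w j)) → OrderHalf r (weightDim r w) Z) ∧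
      (∀ D : ℝ, Generic r w D → OrderHalf r D Z) ∧
      (∀ D : ℝ, D ≤ r - 1 / 2 → OrderHalf r D Z → Generic r w D)) ∧
    (∀ D x : ℝ, 1 ≤ D → 0 < x → x < D → 0 < gain D x) ∧
    (∀ (r : ℕ) (w : Fin r → ℝ) (κ : ℝ), 1 ≤ r → 1 ≤ κ →
      (∀ κ' : ℝ, κ < κ' → ¬ Approximable r w κ') → Generic r w (1 + 1 / κ)) ∧
    (∀ α κ : ℝ, 0 < α → Irrational α → 0 < κ →
      (Approximable 2 ![1, α] κ ↔ LiouvilleWith (κ + 1) α)) ∧
    (∀ d : ℕ, ∀ᵐ v : Fin d → ℝ, LinearIndependent ℚ v ∧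
      ∀ (r : ℕ) (w : Fin r → ℝ), (∀ i, 0 < w i) →
        Submodule.span ℚ (Set.range w) = Submodule.span ℚ (Set.range v) →
        weightDim r w = d ∧ ∀ (a : ℝ) (Z : ℂ → ℂ), 0 < a → IsBarnesZeta r a w Z →
          OrderHalf r d Z) ∧
    (∀ d : ℕ, 1 ≤ d → (d : ℝ) / 2 / (2 * (d : ℝ)) - gain d (d / 2) =
      1 / 4 - 1 / (128 * (d : ℝ) * (d + 1) * (2 * d + 1) ^ 2 * 4 ^ d)) ∧
    (∀ (r : ℕ) (a : ℝ) (w : Fin r → ℝ), 0 < a → (∀ i, 0 < w i) →
      ∃ Z : ℂ → ℂ, IsBarnesZeta r a w Z) := by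
  refine ⟨fun r w a Z hr hw ha hZ => ⟨fun D hD hDr h => main hr hw ha hZ hD hDr h,
    of_generic hr hw ha hZ fun ε hε => Pool.Agent.H312.Sub.di_one w hε,
    fun halg => algebraic hr hw ha hZ halg, fun D h => of_generic hr hw ha hZ h,
    fun D hD h ε hε => Pool.Agent.H312.Sub.di_of_half hr ha hw (cont hZ) hD h hε⟩,
    fun D x hD hx hxD => gain_pos hD hx hxD, fun r w κ hr hκ h ε hε => ?_,
    fun α κ hα hirr hκ => ?_, fun d => almost_all d, fun d hd => gain_edge hd, exists_zeta⟩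
  · exact Pool.Agent.H312.Sub.di_approx hr hκ
      (fun κ' hκ' hS => h κ' hκ' ((approximable_iff r w κ').2 hS)) hε
  · rw [approximable_iff]
    exact Pool.Agent.H312.Barnes.simApprox_two hα hirr hκ

end Pool.Agent.Results.MP_fcb754_nt.Subconvexity
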